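import Mathlib
import Pool.Agent.Helper591.Kneser

set_option autoImplicit false
set_option linter.unusedSectionVars false

open Finset
open scoped Pointwise

namespace Pool.Agent.Results.MP_c7e63d_co.SignedCriticalNumber

open Pool.Agent.Helper591.Kneser

/-- The `h`-fold signed sumset `h_± A`: all sums `∑ λ_a a` over `a ∈ A`, with integer coefficients
satisfying `∑ |λ_a| = h`. -/
def signedSumset {G : Type*} [AddCommGroup G] (A : Finset G) (h : ℕ) : Set G :=
  {g | ∃ c : G → ℤ, ∑ a ∈ A, |c a| = (h : ℤ) ∧ ∑ a ∈ A, c a • a = g}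

/-- `[0,s]_± A`, the union of the `h_± A` over `0 ≤ h ≤ s`. -/
def signedUpTo {G : Type*} [AddCommGroup G] (A : Finset G) (s : ℕ) : Set G :=
  {g | ∃ h : ℕ, h ≤ s ∧ g ∈ signedSumset A h}

/-- The signed `[0,s]`-critical number of `G`: the least `m` such that `[0,s]_± A = G` for every
`A ⊆ G` with `|A| ≥ m`. -/
noncomputable def critical (G : Type*) [AddCommGroup G] (s : ℕ) : ℕ :=
  sInf {m : ℕ | ∀ A : Finset G, m ≤ A.card → signedUpTo A s = Set.univ}

/-- `v_±(n,h)`, the maximum of `(2 ⌊(d-2)/(2h)⌋ + 1) n / d` over the positive divisors `d` of `n`. -/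
noncomputable def v (n h : ℕ) : ℤ :=
  sSup {x : ℤ | ∃ d : ℕ, d ∣ n ∧ x = (2 * (((d : ℤ) - 2) / (2 * (h : ℤ))) + 1) * ((n / d : ℕ) : ℤ)}

/-! ### Signed sumsets and iterated sumsets -/

section basic

variable {G : Type*} [AddCommGroup G] [Fintype G] [DecidableEq G]

/-- the symmetric closure of a set, with zero added -/
def sy (A : Finset G) : Finset G := insert 0 (A ∪ A.image (fun x => -x))

theorem subset_sy (A : Finset G) : A ⊆ sy A := by
  intro x hx
  unfold sy
  simp [hx]

theorem mem_sy {A : Finset G} {x : G} : x ∈ sy A ↔ x = 0 ∨ x ∈ A ∨ -x ∈ A := by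
  unfold sy
  simp only [mem_insert, mem_union, mem_image]
  constructor
  · rintro (h | h | ⟨y, hy, rfl⟩)
    · exact Or.inl h
    · exact Or.inr (Or.inl h)
    · exact Or.inr (Or.inr (by simpa using hy))
  · rintro (h | h | h)
    · exact Or.inl h
    · exact Or.inr (Or.inl h)
    · exact Or.inr (Or.inr ⟨-x, h, by simp⟩)

theorem sm_subset_signed (A : Finset G) (s : ℕ) :
    ∀ g ∈ sm s (sy A), g ∈ signedUpTo A s := by
  induction s with
  | zero =>
    intro g hg
    rw [sm_zero, mem_singleton] at hg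
    subst hg
    exact ⟨0, le_refl _, fun _ => 0, by simp, by simp⟩
  | succ s ih =>
    intro g hg
    rw [sm_succ, Finset.mem_add] at hg
    obtain ⟨y, hy, z, hz, rfl⟩ := hg
    obtain ⟨h, hh, c, hc1, hc2⟩ := ih y hy
    rw [mem_sy] at hz
    have key : ∀ a ∈ A, ∀ e : ℤ, |e| = 1 → ∃ k : ℕ, k ≤ s + 1 ∧
        y + e • a ∈ signedSumset A k := by
      intro a ha e he
      set c' : G → ℤ := fun x => if x = a then c x + e else c x with hc'
      have hk : ∑ x ∈ A, |c' x| ≤ (s : ℤ) + 1 := by
        have h1 : ∑ x ∈ A, |c' x| ≤ ∑ x ∈ A, (|c x| + if x = a then 1 else 0) := by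
          apply Finset.sum_le_sum
          intro x _
          simp only [hc']
          split_ifs with hx
          · calc |c x + e| ≤ |c x| + |e| := abs_add_le _ _
              _ = _ := by rw [he]
          · simp
        rw [Finset.sum_add_distrib, hc1, Finset.sum_ite_eq' A a, if_pos ha] at h1
        have : (h : ℤ) ≤ s := by exact_mod_cast hh
        linarith
      refine ⟨(∑ x ∈ A, |c' x|).toNat, ?_, c', ?_, ?_⟩
      · rw [Int.toNat_le]
        push_cast
        exact hk
      · rw [Int.toNat_of_nonneg (Finset.sum_nonneg fun x _ => abs_nonneg _)]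
      · have h2 : ∑ x ∈ A, c' x • x = ∑ x ∈ A, (c x • x + if x = a then e • a else 0) := by
          apply Finset.sum_congr rfl
          intro x _
          simp only [hc']
          split_ifs with hx
          · subst hx; rw [add_smul]
          · simp
        rw [h2, Finset.sum_add_distrib, hc2, Finset.sum_ite_eq' A a, if_pos ha]
    rcases hz with hz | hz | hz
    · subst hz
      exact ⟨h, by omega, c, hc1, by rw [hc2, add_zero]⟩
    · obtain ⟨k, hk, hk2⟩ := key z hz 1 (by simp)
      rw [one_smul] at hk2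
      exact ⟨k, hk, hk2⟩
    · obtain ⟨k, hk, hk2⟩ := key (-z) hz (-1) (by simp)
      rw [neg_smul, one_smul, neg_neg] at hk2
      exact ⟨k, hk, hk2⟩

/-- In a finite group of odd order a symmetric set containing `0` has odd size. -/
theorem odd_card_of_symm (hodd : Odd (Nat.card G)) (S : Finset G) (h0 : (0 : G) ∈ S)
    (hS : ∀ x ∈ S, -x ∈ S) : Odd S.card := by
  have h1 : ∑ x ∈ S.erase 0, (1 : ZMod 2) = 0 := by
    apply Finset.sum_involution (fun x _ => -x)
    · intro x _
      decide
    · intro x hx _ hxx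
      rw [mem_erase] at hx
      apply hx.1
      have h2 : 2 • x = 0 := by
        rw [two_nsmul]
        nth_rewrite 1 [← hxx]
        simp
      have h3 : addOrderOf x ∣ 2 := addOrderOf_dvd_of_nsmul_eq_zero h2
      have h4 : addOrderOf x ∣ Nat.card G := addOrderOf_dvd_natCard x
      have h5 : addOrderOf x ∣ Nat.gcd 2 (Nat.card G) := Nat.dvd_gcd h3 h4
      have h6 : Nat.gcd 2 (Nat.card G) = 1 := by
        rw [Nat.coprime_two_left.mpr hodd]
      rw [h6, Nat.dvd_one, AddMonoid.addOrderOf_eq_one_iff] at h5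
      exact h5
    · intro x _
      exact neg_neg x
    · intro x hx
      rw [mem_erase] at hx ⊢
      exact ⟨by simpa using hx.1, hS x hx.2⟩
  rw [Finset.sum_const, nsmul_eq_mul, mul_one] at h1
  have h2 : Even (S.erase 0).card := (ZMod.natCast_eq_zero_iff_even).mp h1
  have h3 : (S.erase 0).card + 1 = S.card := Finset.card_erase_add_one h0
  rw [← h3]
  exact h2.add_one

theorem sm_neg (B : Finset G) (hB : ∀ x ∈ B, -x ∈ B) (s : ℕ) : ∀ x ∈ sm s B, -x ∈ sm s B := by
  induction s with
  | zero => intro x hx; rw [sm_zero, mem_singleton] at *; rw [hx, neg_zero]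
  | succ s ih =>
    intro x hx
    rw [sm_succ, Finset.mem_add] at *
    obtain ⟨y, hy, z, hz, rfl⟩ := hx
    exact ⟨-y, ih y hy, -z, hB z hz, by abel⟩

theorem zero_mem_sm (B : Finset G) (hB : (0 : G) ∈ B) (s : ℕ) : (0 : G) ∈ sm s B := by
  induction s with
  | zero => rw [sm_zero, mem_singleton]
  | succ s ih =>
    rw [sm_succ, Finset.mem_add]
    exact ⟨0, ih, 0, hB, by simp⟩

theorem sm_image {Q : Type*} [AddCommGroup Q] [Fintype Q] [DecidableEq Q] (f : G →+ Q)
    (B : Finset G) (s : ℕ) : sm s (B.image f) = (sm s B).image f := by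
  induction s with
  | zero => rw [sm_zero, sm_zero]; simp
  | succ s ih =>
    rw [sm_succ, sm_succ, ih]
    ext x
    simp only [Finset.mem_add, Finset.mem_image]
    constructor
    · rintro ⟨y, ⟨y', hy', rfl⟩, z, ⟨z', hz', rfl⟩, rfl⟩
      exact ⟨y' + z', ⟨y', hy', z', hz', rfl⟩, by rw [map_add]⟩
    · rintro ⟨_, ⟨y', hy', z', hz', rfl⟩, rfl⟩
      exact ⟨f y', ⟨y', hy', rfl⟩, f z', ⟨z', hz', rfl⟩, by rw [map_add]⟩

/-- The consequence of Kneser's theorem used below. -/
theorem kneser_bound (A : Finset G) (s : ℕ) (hs : 1 ≤ s) (hne : sm s (sy A) ≠ univ) :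
    ∃ d b t : ℕ, d ∣ Nat.card G ∧ A.card ≤ b * (Nat.card G / d) ∧ s * b + 1 ≤ t + s ∧
      t + 1 ≤ d ∧ 1 ≤ b ∧ (Odd (Nat.card G) → Odd b ∧ Odd t ∧ Odd d) := by
  classical
  set B := sy A with hB
  set S := sm s B with hS
  set H := stab S with hH
  have hB0 : (0 : G) ∈ B := by rw [hB, mem_sy]; exact Or.inl rfl
  have hBneg : ∀ x ∈ B, -x ∈ B := by
    intro x hx
    rw [hB, mem_sy] at *
    rcases hx with h | h | h
    · left; rw [h, neg_zero]
    · right; right; rwa [neg_neg]
    · right; left; exact h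
  let f : G →+ G ⧸ H := QuotientAddGroup.mk' H
  have hfsurj : Function.Surjective f := QuotientAddGroup.mk'_surjective H
  have hfker : ∀ x y : G, f x = f y → ∃ g ∈ H, g + x = y := by
    intro x y hxy
    have : -x + y ∈ H := by
      rw [← QuotientAddGroup.eq]
      exact hxy
    exact ⟨-x + y, this, by abel⟩
  let _ : Fintype (G ⧸ H) := Fintype.ofFinite _
  set B' := B.image f with hB'
  set S' := sm s B' with hS'
  have hS'eq : S' = S.image f := sm_image f B s
  have hmem : ∀ x : G, f x ∈ S' → x ∈ S := by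
    intro x hx
    rw [hS'eq, mem_image] at hx
    obtain ⟨y, hy, hyx⟩ := hx
    obtain ⟨g, hg, hgy⟩ := hfker y x hyx
    rw [← hgy]
    exact (hg y).mpr hy
  have hst : stab S' = ⊥ := by
    rw [eq_bot_iff]
    intro q hq
    obtain ⟨g, rfl⟩ := hfsurj q
    have hgH : g ∈ H := by
      apply mem_stab_of_forall
      intro x hx
      apply hmem
      rw [map_add]
      rw [hq]
      rw [hS'eq]
      exact mem_image_of_mem _ hx
    rw [AddSubgroup.mem_bot]
    exact (QuotientAddGroup.eq_zero_iff g).mpr hgH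
  have hB'ne : B'.Nonempty := ⟨f 0, mem_image_of_mem _ hB0⟩
  have hk := kneser_sm hB'ne s hs hst
  have hS'ne : S' ≠ univ := by
    intro h
    apply hne
    rw [eq_univ_iff_forall]
    intro x
    apply hmem
    rw [h]
    exact mem_univ _
  have hS'card : S'.card + 1 ≤ Nat.card (G ⧸ H) := by
    rw [Nat.card_eq_fintype_card]
    have : S'.card < Fintype.card (G ⧸ H) := by
      rw [← Finset.card_univ]
      exact Finset.card_lt_card (Finset.ssubset_univ_iff.mpr hS'ne)
    omega
  have hcardG : Nat.card G = Nat.card (G ⧸ H) * Nat.card H :=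
    AddSubgroup.card_eq_card_quotient_mul_card_addSubgroup H
  have hQpos : 0 < Nat.card (G ⧸ H) := Nat.card_pos
  have hdiv : Nat.card G / Nat.card (G ⧸ H) = Nat.card H := by
    rw [hcardG, Nat.mul_div_cancel_left _ hQpos]
  refine ⟨Nat.card (G ⧸ H), B'.card, S'.card, ⟨_, hcardG⟩, ?_, hk, hS'card, ?_, ?_⟩
  · rw [hdiv]
    calc A.card ≤ B.card := card_le_card (subset_sy A)
      _ ≤ Nat.card H * B'.card := by
          apply Finset.card_le_mul_card_image
          intro q hq
          obtain ⟨x0, rfl⟩ := hfsurj q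
          have : (B.filter (fun x => f x = f x0)).card ≤ ((univ : Finset H).image
              (fun g : H => (g : G) + x0)).card := by
            apply card_le_card
            intro x hx
            rw [mem_filter] at hx
            obtain ⟨g, hg, hgx⟩ := hfker x0 x hx.2.symm
            rw [mem_image]
            exact ⟨⟨g, hg⟩, mem_univ _, hgx⟩
          refine this.trans ?_
          refine Finset.card_image_le.trans ?_
          rw [Finset.card_univ, Nat.card_eq_fintype_card]
      _ = B'.card * Nat.card H := Nat.mul_comm _ _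
  · exact hB'ne.card_pos
  · intro hodd
    have hQodd : Odd (Nat.card (G ⧸ H)) := by
      rw [hcardG] at hodd
      exact Nat.Odd.of_mul_right hodd |> fun _ => (Nat.odd_mul.mp hodd).1
    have hB'0 : (0 : G ⧸ H) ∈ B' := by
      rw [hB', mem_image]
      exact ⟨0, hB0, map_zero f⟩
    have hB'neg : ∀ x ∈ B', -x ∈ B' := by
      intro x hx
      rw [hB', mem_image] at *
      obtain ⟨y, hy, rfl⟩ := hx
      exact ⟨-y, hBneg y hy, map_neg f y⟩
    exact ⟨odd_card_of_symm hQodd B' hB'0 hB'neg,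
      odd_card_of_symm hQodd S' (zero_mem_sm B' hB'0 s) (sm_neg B' hB'neg s), hQodd⟩

end basic

/-! ### The value `v` -/

theorem vset_finite (n h : ℕ) (hn : 0 < n) :
    {x : ℤ | ∃ d : ℕ, d ∣ n ∧
      x = (2 * (((d : ℤ) - 2) / (2 * (h : ℤ))) + 1) * ((n / d : ℕ) : ℤ)}.Finite := by
  have : {x : ℤ | ∃ d : ℕ, d ∣ n ∧
      x = (2 * (((d : ℤ) - 2) / (2 * (h : ℤ))) + 1) * ((n / d : ℕ) : ℤ)} =
      (fun d : ℕ => (2 * (((d : ℤ) - 2) / (2 * (h : ℤ))) + 1) * ((n / d : ℕ) : ℤ)) ''
        (n.divisors : Set ℕ) := by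
    ext x
    simp only [Set.mem_ofPred_eq, Set.mem_image, Finset.mem_coe, Nat.mem_divisors]
    constructor
    · rintro ⟨d, hd, rfl⟩
      exact ⟨d, ⟨hd, hn.ne'⟩, rfl⟩
    · rintro ⟨d, ⟨hd, _⟩, rfl⟩
      exact ⟨d, hd, rfl⟩
  rw [this]
  exact (Finset.finite_toSet _).image _

theorem le_v (n h : ℕ) (hn : 0 < n) (d : ℕ) (hd : d ∣ n) :
    (2 * (((d : ℤ) - 2) / (2 * (h : ℤ))) + 1) * ((n / d : ℕ) : ℤ) ≤ v n h :=
  le_csSup (vset_finite n h hn).bddAbove ⟨d, hd, rfl⟩

theorem v_mem (n h : ℕ) (hn : 0 < n) : ∃ d : ℕ, d ∣ n ∧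
    v n h = (2 * (((d : ℤ) - 2) / (2 * (h : ℤ))) + 1) * ((n / d : ℕ) : ℤ) := by
  have hne : {x : ℤ | ∃ d : ℕ, d ∣ n ∧
      x = (2 * (((d : ℤ) - 2) / (2 * (h : ℤ))) + 1) * ((n / d : ℕ) : ℤ)}.Nonempty :=
    ⟨_, 1, one_dvd n, rfl⟩
  exact hne.csSup_mem (vset_finite n h hn)

theorem v_ge (n s : ℕ) (hn : 0 < n) (hs : 0 < s) : 0 ≤ v n s + 1 := by
  have h1 := le_v n s hn n dvd_rfl
  rw [Nat.div_self hn] at h1
  have h2 : (-1 : ℤ) ≤ ((n : ℤ) - 2) / (2 * (s : ℤ)) := by
    rw [Int.le_ediv_iff_mul_le (by positivity)]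
    have : (1 : ℤ) ≤ s := by exact_mod_cast hs
    have : (1 : ℤ) ≤ n := by exact_mod_cast hn
    linarith
  push_cast at h1
  linarith

/-! ### The lower bound -/

theorem exists_bad (n s d k : ℕ) [NeZero n] (hd : d ∣ n) (hk : 2 * (s * k) + 2 ≤ d)
    (hs : 0 < s) :
    ∃ A : Finset (ZMod n), A.card = (2 * k + 1) * (n / d) ∧ signedUpTo A s ≠ Set.univ := by
  classical
  have hn : 0 < n := Nat.pos_of_ne_zero (NeZero.ne n)
  obtain ⟨e, he⟩ := hd
  have hdpos : 0 < d := by omega
  have hde : n / d = e := by rw [he, Nat.mul_div_cancel_left _ hdpos]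
  rw [hde]
  have hkd : 2 * k + 2 ≤ d := by
    have : k ≤ s * k := Nat.le_mul_of_pos_left k hs
    omega
  set f : ℤ × ℤ → ZMod n := fun p => ((p.1 + d * p.2 : ℤ) : ZMod n) with hf
  set D : Finset (ℤ × ℤ) := (Finset.Icc (-(k : ℤ)) k) ×ˢ (Finset.Ico (0 : ℤ) e) with hD
  have hinj : Set.InjOn f (D : Set (ℤ × ℤ)) := by
    rintro ⟨j, i⟩ hp ⟨j', i'⟩ hp' hff
    simp only [hD, Finset.mem_coe, Finset.mem_product, Finset.mem_Icc, Finset.mem_Ico] at hp hp'
    simp only [hf] at hff
    rw [ZMod.intCast_eq_intCast_iff_dvd_sub] at hff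
    obtain ⟨⟨h1, h2⟩, h3, h4⟩ := hp
    obtain ⟨⟨h1', h2'⟩, h3', h4'⟩ := hp'
    have hdZ : (2 * k + 2 : ℤ) ≤ d := by exact_mod_cast hkd
    have hnZ : (n : ℤ) = d * e := by exact_mod_cast he
    have hd0 : (0 : ℤ) < d := by exact_mod_cast hdpos
    -- first coordinate
    have hdvd : (d : ℤ) ∣ j' - j := by
      have h5 : (d : ℤ) ∣ (j' + d * i') - (j + d * i) := by
        refine dvd_trans ?_ hff
        rw [hnZ]; exact dvd_mul_right _ _
      have h6 : (j' + d * i') - (j + d * i) = (j' - j) + d * (i' - i) := by ring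
      rw [h6] at h5
      exact (dvd_add_left (dvd_mul_right _ _)).mp h5
    have hj : j' - j = 0 := by
      apply Int.eq_zero_of_abs_lt_dvd hdvd
      rw [abs_lt]
      constructor <;> linarith
    have hjj : j' = j := by linarith
    subst hjj
    have hdvd2 : (e : ℤ) ∣ i' - i := by
      have h6 : (j' + d * i') - (j' + d * i) = d * (i' - i) := by ring
      rw [h6, hnZ] at hff
      exact Int.dvd_of_mul_dvd_mul_left hd0.ne' hff |> fun h => h
    have hi : i' - i = 0 := by
      apply Int.eq_zero_of_abs_lt_dvd hdvd2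
      rw [abs_lt]
      constructor <;> linarith
    have : i' = i := by linarith
    rw [this]
  refine ⟨D.image f, ?_, ?_⟩
  · rw [Finset.card_image_of_injOn hinj, hD, Finset.card_product, Int.card_Icc, Int.card_Ico]
    congr 1
    · have : (k : ℤ) + 1 - -(k : ℤ) = ((2 * k + 1 : ℕ) : ℤ) := by push_cast; ring
      rw [this, Int.toNat_natCast]
  · intro huniv
    have hdn : d ∣ n := ⟨e, he⟩
    have key : ∀ g : ZMod n, ∀ h : ℕ, g ∈ signedSumset (D.image f) h →
        ∃ J : ℤ, |J| ≤ h * k ∧ ZMod.castHom hdn (ZMod d) g = (J : ZMod d) := by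
      rintro g h ⟨c, hc1, hc2⟩
      have hch : ∀ a ∈ D.image f, ∃ j : ℤ, |j| ≤ k ∧
          ZMod.castHom hdn (ZMod d) a = (j : ZMod d) := by
        intro a ha
        rw [Finset.mem_image] at ha
        obtain ⟨⟨j, i⟩, hp, rfl⟩ := ha
        simp only [hD, Finset.mem_product, Finset.mem_Icc, Finset.mem_Ico] at hp
        refine ⟨j, abs_le.mpr ⟨hp.1.1, hp.1.2⟩, ?_⟩
        simp only [hf]
        rw [map_intCast]
        push_cast
        rw [ZMod.natCast_self, zero_mul, add_zero]
      choose! j hj1 hj2 using hch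
      refine ⟨∑ a ∈ D.image f, c a * j a, ?_, ?_⟩
      · calc |∑ a ∈ D.image f, c a * j a| ≤ ∑ a ∈ D.image f, |c a * j a| :=
              Finset.abs_sum_le_sum_abs _ _
          _ ≤ ∑ a ∈ D.image f, |c a| * k := by
              apply Finset.sum_le_sum
              intro a ha
              rw [abs_mul]
              exact mul_le_mul_of_nonneg_left (hj1 a ha) (abs_nonneg _)
          _ = h * k := by rw [← Finset.sum_mul, hc1]
      · rw [← hc2, map_sum]
        push_cast
        apply Finset.sum_congr rfl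
        intro a ha
        rw [zsmul_eq_mul, map_mul, map_intCast, hj2 a ha]
    have hmem : ((s * k + 1 : ℤ) : ZMod n) ∈ signedUpTo (D.image f) s := by
      rw [huniv]; exact Set.mem_univ _
    obtain ⟨h, hh, hg⟩ := hmem
    obtain ⟨J, hJ1, hJ2⟩ := key _ h hg
    rw [map_intCast, ZMod.intCast_eq_intCast_iff_dvd_sub] at hJ2
    have hhk : (h : ℤ) * k ≤ s * k := by
      have : h * k ≤ s * k := Nat.mul_le_mul_right k hh
      exact_mod_cast this
    have hkZ : 2 * ((s : ℤ) * k) + 2 ≤ d := by exact_mod_cast hk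
    have hJ3 := abs_le.mp (hJ1.trans hhk)
    have h0 : J - (s * k + 1) = 0 := by
      apply Int.eq_zero_of_abs_lt_dvd hJ2
      rw [abs_lt]
      constructor <;> linarith [hJ3.1, hJ3.2]
    linarith [hJ3.2]

/-! ### The upper bound -/

theorem upper (n s : ℕ) [NeZero n] (hs : 0 < s) (A : Finset (ZMod n))
    (hne : signedUpTo A s ≠ Set.univ) : (A.card : ℤ) ≤ v n s := by
  classical
  have hn : 0 < n := Nat.pos_of_ne_zero (NeZero.ne n)
  have hsm : sm s (sy A) ≠ univ := by
    intro h
    apply hne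
    rw [Set.eq_univ_iff_forall]
    intro g
    apply sm_subset_signed
    rw [h]
    exact mem_univ _
  obtain ⟨d, b, t, hd, hA, hsb, htd, hb, hoddc⟩ := kneser_bound A s hs hsm
  rw [Nat.card_zmod] at hd hA hoddc
  have hdpos : 0 < d := Nat.pos_of_dvd_of_pos hd hn
  rcases Nat.even_or_odd n with heven | hodd
  · obtain ⟨n', hn'⟩ := heven
    rcases Nat.lt_or_ge s 2 with hs2 | hs2
    · have hs1 : s = 1 := by omega
      subst hs1
      have hAne : A ≠ univ := by
        intro h
        apply hne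
        rw [Set.eq_univ_iff_forall]
        intro g
        refine ⟨1, le_refl _, fun x => if x = g then 1 else 0, ?_, ?_⟩
        · rw [h, Finset.sum_eq_single g]
          · simp
          · intro x _ hx
            simp [hx]
          · intro hx
            exact absurd (mem_univ g) hx
        · rw [h]; simp
      have hc : A.card < n := by
        have := Finset.card_lt_card (Finset.ssubset_univ_iff.mpr hAne)
        rwa [Finset.card_univ, ZMod.card] at this
      have h1 := le_v n 1 hn n dvd_rfl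
      rw [Nat.div_self hn] at h1
      have h2 : ((n : ℤ) - 2) / (2 * ((1 : ℕ) : ℤ)) = (n' : ℤ) - 1 := by
        have : (n : ℤ) - 2 = 2 * ((n' : ℤ) - 1) := by rw [hn']; push_cast; ring
        rw [this]
        simp
      rw [h2] at h1
      push_cast at h1
      have h3 : (n : ℤ) = n' + n' := by exact_mod_cast hn'
      have h4 : (A.card : ℤ) + 1 ≤ n := by exact_mod_cast hc
      linarith
    · have h2b : 2 * b ≤ d := by
        by_contra hcon
        have h1 : (s - 2) * 1 ≤ (s - 2) * b := Nat.mul_le_mul_left _ hb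
        have h2 : s * b = 2 * b + (s - 2) * b := by
          rw [← Nat.add_mul]; congr 1; omega
        omega
      have h1 := le_v n s hn 2 ⟨n', by omega⟩
      have h2 : n / 2 = n' := by omega
      rw [h2] at h1
      norm_num at h1
      have h3 : 2 * A.card ≤ n := by
        calc 2 * A.card ≤ 2 * (b * (n / d)) := Nat.mul_le_mul_left _ hA
          _ = (2 * b) * (n / d) := by ring
          _ ≤ d * (n / d) := Nat.mul_le_mul_right _ h2b
          _ = n := Nat.mul_div_cancel' hd
      have h4 : A.card ≤ n' := by omega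
      have h5 : (A.card : ℤ) ≤ n' := by exact_mod_cast h4
      linarith
  · obtain ⟨⟨k, hk⟩, ⟨t', ht'⟩, ⟨d', hd'⟩⟩ := hoddc hodd
    have hkd : 2 * (s * k) + 2 ≤ d := by
      subst hk
      have : s * (2 * k + 1) = 2 * (s * k) + s := by ring
      omega
    have hk2 : (k : ℤ) ≤ ((d : ℤ) - 2) / (2 * (s : ℤ)) := by
      rw [Int.le_ediv_iff_mul_le (by positivity)]
      have : 2 * ((s : ℤ) * k) + 2 ≤ d := by exact_mod_cast hkd
      linarith
    have h1 := le_v n s hn d hd
    have h2 : (A.card : ℤ) ≤ (2 * k + 1) * ((n / d : ℕ) : ℤ) := by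
      rw [hk] at hA
      exact_mod_cast hA
    calc (A.card : ℤ) ≤ (2 * k + 1) * ((n / d : ℕ) : ℤ) := h2
      _ ≤ (2 * (((d : ℤ) - 2) / (2 * (s : ℤ))) + 1) * ((n / d : ℕ) : ℤ) := by
          apply mul_le_mul_of_nonneg_right _ (by positivity)
          linarith
      _ ≤ v n s := h1

/-- `χ_±(ℤ_n,[0,s]) = v_±(n,s) + 1` for all positive integers `n` and `s`. -/
theorem result (n s : ℕ) (hn : 0 < n) (hs : 0 < s) :
    (critical (ZMod n) s : ℤ) = v n s + 1 := by
  have : NeZero n := ⟨hn.ne'⟩
  have hge := v_ge n s hn hs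
  have hleast : IsLeast {m : ℕ | ∀ A : Finset (ZMod n), m ≤ A.card → signedUpTo A s = Set.univ}
      (v n s + 1).toNat := by
    constructor
    · intro A hA
      by_contra hne
      have h1 := upper n s hs A hne
      rw [Int.toNat_le] at hA
      linarith
    · intro m hm
      rw [Int.toNat_le]
      by_contra hcon
      have hmv : (m : ℤ) ≤ v n s := by linarith [not_le.mp hcon]
      obtain ⟨d, hd, hvd⟩ := v_mem n s hn
      have hdpos : 0 < d := Nat.pos_of_dvd_of_pos hd hn
      set q : ℤ := ((d : ℤ) - 2) / (2 * (s : ℤ)) with hq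
      have hq0 : 0 ≤ q := by
        by_contra hneg
        have h1 : 2 * q + 1 ≤ -1 := by linarith [not_le.mp hneg]
        have h2 : (1 : ℤ) ≤ ((n / d : ℕ) : ℤ) := by
          have : 0 < n / d := Nat.div_pos (Nat.le_of_dvd hn hd) hdpos
          exact_mod_cast this
        have h3 : (2 * q + 1) * ((n / d : ℕ) : ℤ) ≤ -1 := by nlinarith
        have h4 : (0 : ℤ) ≤ m := by positivity
        linarith
      obtain ⟨k, hk⟩ := Int.eq_ofNat_of_zero_le hq0
      have hkd : 2 * (s * k) + 2 ≤ d := by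
        have h1 : q * (2 * (s : ℤ)) ≤ (d : ℤ) - 2 := Int.ediv_mul_le _ (by positivity)
        rw [hk] at h1
        zify
        linarith
      obtain ⟨A, hA1, hA2⟩ := exists_bad n s d k hd hkd hs
      apply hA2
      apply hm A
      have h5 : (m : ℤ) ≤ ((2 * k + 1) * (n / d) : ℕ) := by
        rw [hvd, hk] at hmv
        push_cast at hmv ⊢
        exact hmv
      rw [hA1]
      exact_mod_cast h5
  have h1 : critical (ZMod n) s = (v n s + 1).toNat := hleast.csInf_eq
  rw [h1, Int.toNat_of_nonneg hge]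

end Pool.Agent.Results.MP_c7e63d_co.SignedCriticalNumber
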